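import Pool.Agent.N431.Hyp.Tope

/-!
# Hypercellular graphs are convex subgraphs of tope graphs of realizable oriented matroids

Let `G` be a finite hypercellular graph, embedded isometrically in a hypercube with coordinate set
`ι` (the classes of the Djokovic-Winkler relation), and let `S` be its vertex set.  Call two
coordinates crossing if all four sign patterns occur in `S`, and call a triple of pairwise crossing
coordinates concurrent if exactly six of the eight patterns occur (excluding the cube minus a vertex
as a pc-minor leaves only six or eight).  The proof:

* `S` is determined by its projections to three coordinates (`determined`);
* concurrency is transitive, so concurrent triples come from pencils, maximal cliques of coordinates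
  any three of which are concurrent, and two pencils share at most one coordinate (`pencil`, `lemB`,
  `pen_unique`);
* every pencil is realised by vectors of the plane (`exists_fan`), and if `W` is the linear space of
  the `x : ι → ℝ` whose restriction to each pencil comes from a point of the plane, then every
  vertex `v` of `S` is the sign vector of a point `x` of `W` satisfying one strict linear inequality
  for each pattern missing on a non-crossing pair (`exists_y`), and conversely (`main_space`);
* hence the arrangement in `W` of the coordinate hyperplanes and of the hyperplanes of these
  inequalities has `G` as the subgraph of its tope graph induced by an intersection of halfspaces,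
  which is a convex subgraph (`tope_main`).
-/

namespace Pool.Agent.Results.MP_25e9c6_co.HypercellularTope

open N431.Hyp

/-- Every finite hypercellular graph is isomorphic to a convex subgraph of the tope graph of some
finite arrangement of linear hyperplanes of `ℝ^d`. -/
theorem result {V : Type} [Finite V] (G : SimpleGraph V) (hG : Hypercellular G) :
    ∃ (d : ℕ) (A : Finset (Submodule ℝ (Fin d → ℝ))), (∀ H ∈ A, IsHyperplane H) ∧
      ∃ C : Set {R : Set (Fin d → ℝ) // IsRegion A R}, IsConvex (topeGraph A) C ∧
        Nonempty (G ≃g (topeGraph A).induce C) :=
  hyper_main G hG

end Pool.Agent.Results.MP_25e9c6_co.HypercellularTope
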